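import Mathlib

/-!
# An elementary lower bound for the sum of reciprocals of primes
-/

namespace Pool.Agent.Helper83.PM

open Finset

/-- the completely multiplicative function `n ↦ 1/n` -/
noncomputable def invHom : ℕ →* ℝ where
  toFun n := (n : ℝ)⁻¹
  map_one' := by simp
  map_mul' m n := by push_cast; rw [mul_inv]

theorem harm_le_prod (n : ℕ) :
    ∑ i ∈ Icc 1 n, (i : ℝ)⁻¹ ≤ ∏ p ∈ (n + 1).primesBelow, (1 - (p : ℝ)⁻¹)⁻¹ := by
  have h := (EulerProduct.summable_and_hasSum_smoothNumbers_prod_primesBelow_geometric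
    (f := invHom) (by
      intro p hp
      show ‖(p : ℝ)⁻¹‖ < 1
      rw [norm_inv, Real.norm_natCast]
      exact inv_lt_one_of_one_lt₀ (by exact_mod_cast hp.one_lt)) (n + 1)).2
  have h2 := sum_le_hasSum ((Icc 1 n).subtype (· ∈ Nat.smoothNumbers (n + 1))) (fun i _ => by
    show 0 ≤ ((i : ℕ) : ℝ)⁻¹
    positivity) h
  refine le_trans (le_of_eq ?_) h2
  rw [Finset.sum_subtype_of_mem (p := (· ∈ Nat.smoothNumbers (n + 1))) (fun i => (invHom i : ℝ))]
  · rfl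
  · intro x hx
    rw [mem_Icc] at hx
    rw [Nat.mem_smoothNumbers']
    intro p hp hpx
    exact lt_of_le_of_lt (Nat.le_of_dvd (by omega) hpx) (by omega)

theorem log_le_harm (n : ℕ) : Real.log (n + 1) ≤ ∑ i ∈ Icc 1 n, (i : ℝ)⁻¹ := by
  have := log_add_one_le_harmonic n
  rw [harmonic_eq_sum_Icc] at this
  push_cast at this
  exact this

theorem harm_le_log (n : ℕ) : ∑ i ∈ Icc 1 n, (i : ℝ)⁻¹ ≤ 1 + Real.log n := by
  have := harmonic_le_one_add_log n
  rw [harmonic_eq_sum_Icc] at this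
  push_cast at this
  exact this

/-- `∑_{z < n ≤ y} 1/n² ≤ 1/z` -/
theorem sum_inv_sq_le (z y : ℕ) (hz : 1 ≤ z) :
    ∑ i ∈ Ioc z y, 1 / (i : ℝ) ^ 2 ≤ 1 / (z : ℝ) := by
  have hz0 : (0 : ℝ) < z := by exact_mod_cast hz
  have key : ∀ y, z ≤ y → ∑ i ∈ Ioc z y, 1 / (i : ℝ) ^ 2 ≤ 1 / (z : ℝ) - 1 / (y : ℝ) := by
    intro y hy
    induction y, hy using Nat.le_induction with
    | base => simp
    | succ k hk ih =>
      rw [Finset.sum_Ioc_succ_top hk]
      have hk0 : (0 : ℝ) < k := lt_of_lt_of_le hz0 (by exact_mod_cast hk)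
      have : 1 / ((k + 1 : ℕ) : ℝ) ^ 2 ≤ 1 / (k : ℝ) - 1 / ((k + 1 : ℕ) : ℝ) := by
        push_cast
        rw [div_sub_div _ _ hk0.ne' (by positivity), div_le_div_iff₀ (by positivity) (by positivity)]
        nlinarith [hk0]
      linarith
  by_cases h : z ≤ y
  · have := key y h
    have h2 : 0 ≤ 1 / (y : ℝ) := by positivity
    linarith
  · rw [Finset.Ioc_eq_empty (by omega)]
    simp

theorem loglog_le (n : ℕ) (hn : 2 ≤ n) :
    Real.log (Real.log n) ≤ ∑ p ∈ (n + 1).primesBelow, 1 / (p : ℝ) + 2 := by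
  have h1 : Real.log n ≤ ∏ p ∈ (n + 1).primesBelow, (1 - (p : ℝ)⁻¹)⁻¹ := by
    refine le_trans ?_ (le_trans (log_le_harm n) (harm_le_prod n))
    exact Real.log_le_log (by positivity) (by linarith)
  have hlog : 0 < Real.log n := Real.log_pos (by exact_mod_cast (by omega : 1 < n))
  have h2 := Real.log_le_log hlog h1
  refine h2.trans ?_
  have hp2 : ∀ p ∈ (n + 1).primesBelow, (2 : ℝ) ≤ p := by
    intro p hp
    exact_mod_cast (Nat.prime_of_mem_primesBelow hp).two_le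
  rw [Real.log_prod (fun p hp => by
    have h := hp2 p hp
    have : (p : ℝ)⁻¹ ≤ 1 / 2 := by
      rw [inv_le_comm₀ (by linarith) (by norm_num)]; simpa using h
    exact inv_ne_zero (by linarith))]
  have h3 : ∀ p ∈ (n + 1).primesBelow, Real.log (1 - (p : ℝ)⁻¹)⁻¹ ≤
      1 / (p : ℝ) + 2 * (1 / (p : ℝ) ^ 2) := by
    intro p hp
    have h := hp2 p hp
    have h0 : (0 : ℝ) < p := by linarith
    have hx : (p : ℝ)⁻¹ ≤ 1 / 2 := by
      rw [inv_le_comm₀ (by linarith) (by norm_num)]; simpa using h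
    have hx0 : 0 < (p : ℝ)⁻¹ := by positivity
    have hpos : 0 < (1 - (p : ℝ)⁻¹)⁻¹ := inv_pos.mpr (by linarith)
    have h4 := Real.log_le_sub_one_of_pos hpos
    refine h4.trans ?_
    rw [one_div, one_div, ← inv_pow]
    set x := (p : ℝ)⁻¹
    have : (1 - x)⁻¹ ≤ 1 + x + 2 * x ^ 2 := by
      rw [inv_le_iff_one_le_mul₀ (by linarith)]
      nlinarith [mul_nonneg (mul_nonneg hx0.le hx0.le) (by linarith : (0:ℝ) ≤ 1 - 2 * x)]
    linarith
  refine (Finset.sum_le_sum h3).trans ?_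
  rw [Finset.sum_add_distrib, ← Finset.mul_sum]
  have h5 : ∑ p ∈ (n + 1).primesBelow, 1 / (p : ℝ) ^ 2 ≤ 1 := by
    refine le_trans ?_ (le_trans (sum_inv_sq_le 1 n le_rfl) (by norm_num))
    refine Finset.sum_le_sum_of_subset_of_nonneg ?_ (fun _ _ _ => by positivity)
    intro p hp
    rw [mem_Ioc]
    exact ⟨(Nat.prime_of_mem_primesBelow hp).one_lt, by
      have := Nat.lt_of_mem_primesBelow hp
      omega⟩
  linarith

/-- the primes in `(z, y]` -/
def PP (z y : ℕ) : Finset ℕ := (Ioc z y).filter Nat.Prime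

theorem mem_PP {z y p : ℕ} : p ∈ PP z y ↔ (z < p ∧ p ≤ y) ∧ p.Prime := by
  unfold PP
  rw [mem_filter, mem_Ioc]

theorem sum_PP_ge (z y : ℕ) (hy : 2 ≤ y) :
    Real.log (Real.log y) - (2 + (z : ℝ)) ≤ ∑ p ∈ PP z y, 1 / (p : ℝ) := by
  have h1 := loglog_le y hy
  have h2 : ∑ p ∈ (y + 1).primesBelow, 1 / (p : ℝ) ≤ ∑ p ∈ PP z y, 1 / (p : ℝ) + z := by
    have h3 : (y + 1).primesBelow ⊆ PP z y ∪ Ioc 0 z := by
      intro p hp
      rw [mem_union, mem_PP, mem_Ioc]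
      have h4 := Nat.lt_of_mem_primesBelow hp
      have h5 := Nat.prime_of_mem_primesBelow hp
      by_cases h : p ≤ z
      · right; exact ⟨h5.pos, h⟩
      · left; exact ⟨⟨by omega, by omega⟩, h5⟩
    have h6 : ∑ p ∈ Ioc 0 z, 1 / (p : ℝ) ≤ z := by
      calc ∑ p ∈ Ioc 0 z, 1 / (p : ℝ) ≤ ∑ p ∈ Ioc 0 z, (1 : ℝ) := by
            refine Finset.sum_le_sum fun p hp => ?_
            rw [mem_Ioc] at hp
            have : (1 : ℝ) ≤ p := by exact_mod_cast hp.1
            rw [div_le_one (by linarith)]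
            exact this
        _ = z := by simp
    calc ∑ p ∈ (y + 1).primesBelow, 1 / (p : ℝ) ≤ ∑ p ∈ PP z y ∪ Ioc 0 z, 1 / (p : ℝ) :=
          Finset.sum_le_sum_of_subset_of_nonneg h3 (fun _ _ _ => by positivity)
      _ ≤ ∑ p ∈ PP z y, 1 / (p : ℝ) + ∑ p ∈ Ioc 0 z, 1 / (p : ℝ) := by
          rw [← Finset.sum_union_inter]
          have : 0 ≤ ∑ p ∈ PP z y ∩ Ioc 0 z, 1 / (p : ℝ) := by positivity
          linarith
      _ ≤ _ := by linarith
  linarith

end Pool.Agent.Helper83.PM
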