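import Pool.Agent.Helper83.PM.Mert

/-!
# Core inequality
-/

namespace Pool.Agent.Helper83.PM

open Finset

/-- number of pairs `(p, a)` with `p` prime, `a ∈ A` and `m = p a` -/
def repCount (A : Finset ℕ) (m : ℕ) : ℕ :=
  ((Nat.divisorsAntidiagonal m).filter fun x => x.1.Prime ∧ x.2 ∈ A).card

/-- `r`-admissible at level `N` -/
def Admissible (r N : ℕ) (A : Finset ℕ) : Prop :=
  A ⊆ Finset.Icc 1 N ∧ ∀ m, 0 < m → repCount A m ≤ r

/-- the reciprocal sum -/
noncomputable def recSum (A : Finset ℕ) : ℝ := ∑ n ∈ A, 1 / (n : ℝ)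

/-- the largest reciprocal sum of an admissible set -/
noncomputable def maxSum (r N : ℕ) : ℝ := sSup (recSum '' {A | Admissible r N A})

/-- number of divisors in `P` -/
def om (P : Finset ℕ) (b : ℕ) : ℕ := (P.filter fun p => p ∣ b).card

/-- the weight -/
noncomputable def uu (P : Finset ℕ) (b : ℕ) : ℝ :=
  1 / Real.sqrt (((om P b : ℝ) + 1) * ((om P b : ℝ) + 2))

theorem uu_nonneg (P : Finset ℕ) (b : ℕ) : 0 ≤ uu P b := by unfold uu; positivity

theorem uu_sq (P : Finset ℕ) (b : ℕ) :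
    uu P b ^ 2 = 1 / (((om P b : ℝ) + 1) * ((om P b : ℝ) + 2)) := by
  unfold uu
  rw [div_pow, Real.sq_sqrt (by positivity), one_pow]

theorem uu_ge (P : Finset ℕ) (b : ℕ) (k : ℕ) (h : om P b ≤ k) : 1 / ((k : ℝ) + 2) ≤ uu P b := by
  unfold uu
  have hk : (om P b : ℝ) ≤ k := by exact_mod_cast h
  have h0 : (0 : ℝ) ≤ om P b := Nat.cast_nonneg _
  refine one_div_le_one_div_of_le (Real.sqrt_pos.mpr (by positivity)) ?_
  rw [Real.sqrt_le_left (by positivity)]
  nlinarith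

theorem om_le_of_dvd (P : Finset ℕ) {a b : ℕ} (h : a ∣ b) : om P a ≤ om P b := by
  unfold om
  refine card_le_card ?_
  intro p hp
  rw [mem_filter] at hp ⊢
  exact ⟨hp.1, hp.2.trans h⟩

theorem om_mul_le (P : Finset ℕ) (hP : ∀ p ∈ P, p.Prime) (b p : ℕ) (hp : p.Prime) :
    om P (p * b) ≤ om P b + 1 := by
  unfold om
  have : (P.filter fun x => x ∣ p * b) ⊆ insert p (P.filter fun x => x ∣ b) := by
    intro x hx
    rw [mem_filter] at hx
    rw [mem_insert, mem_filter]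
    rcases ((hP x hx.1).dvd_mul).mp hx.2 with h | h
    · left
      exact (Nat.prime_dvd_prime_iff_eq (hP x hx.1) hp).mp h
    · right
      exact ⟨hx.1, h⟩
  refine (card_le_card this).trans ?_
  exact card_insert_le _ _

/-- change of variables `a = q b` -/
theorem sum_shift (N : ℕ) (A : Finset ℕ) (hA : A ⊆ Icc 1 N) (q : ℕ) (hq : 0 < q) (f : ℕ → ℝ) :
    ∑ b ∈ Icc 1 N, (if q * b ∈ A then f b else 0) =
      ∑ a ∈ A, (if q ∣ a then f (a / q) else 0) := by
  rw [← Finset.sum_filter, ← Finset.sum_filter]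
  refine Finset.sum_nbij' (fun b => q * b) (fun a => a / q) ?_ ?_ ?_ ?_ ?_
  · intro b hb
    rw [mem_filter] at hb ⊢
    exact ⟨hb.2, dvd_mul_right q b⟩
  · intro a ha
    rw [mem_filter] at ha ⊢
    have h1 := hA ha.1
    rw [mem_Icc] at h1 ⊢
    obtain ⟨c, hc⟩ := ha.2
    subst hc
    rw [Nat.mul_div_cancel_left _ hq]
    refine ⟨⟨?_, ?_⟩, ha.1⟩
    · rcases Nat.eq_zero_or_pos c with h | h
      · subst h; omega
      · exact h
    · exact le_trans (Nat.le_mul_of_pos_left c hq) h1.2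
  · intro b hb
    exact Nat.mul_div_cancel_left _ hq
  · intro a ha
    rw [mem_filter] at ha
    exact Nat.mul_div_cancel' ha.2
  · intro b hb
    rw [Nat.mul_div_cancel_left _ hq]

/-- first estimate: the negative moment of the number of prime divisors -/
theorem W_bound (N y : ℕ) (P : Finset ℕ) (hP : ∀ p ∈ P, p.Prime) (hPy : ∀ p ∈ P, p ≤ y) :
    (∑ b ∈ Icc 1 N, 1 / (b : ℝ) * (1 / (((om P b : ℝ) + 1) * ((om P b : ℝ) + 2)))) *
      ((∑ p ∈ P, 1 / (p : ℝ)) ^ 2 - ∑ p ∈ P, 1 / (p : ℝ) ^ 2) ≤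
      ∑ m ∈ Icc 1 (N * y ^ 2), 1 / (m : ℝ) := by
  have e1 : (∑ p ∈ P, 1 / (p : ℝ)) ^ 2 - ∑ p ∈ P, 1 / (p : ℝ) ^ 2 =
      ∑ x ∈ P.offDiag, 1 / ((x.1 : ℝ) * x.2) := by
    have h1 : (∑ p ∈ P, 1 / (p : ℝ)) ^ 2 = ∑ x ∈ P ×ˢ P, 1 / ((x.1 : ℝ) * x.2) := by
      rw [sq, Finset.sum_mul_sum, Finset.sum_product]
      refine Finset.sum_congr rfl fun p _ => Finset.sum_congr rfl fun q _ => ?_
      rw [one_div_mul_one_div]
    have h2 : ∑ p ∈ P, 1 / (p : ℝ) ^ 2 = ∑ x ∈ P.diag, 1 / ((x.1 : ℝ) * x.2) := by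
      rw [Finset.sum_diag]
      refine Finset.sum_congr rfl fun p _ => ?_
      rw [sq]
    rw [h1, h2, ← Finset.diag_union_offDiag, Finset.sum_union (Finset.disjoint_diag_offDiag P)]
    ring
  rw [e1, Finset.sum_mul_sum, ← Finset.sum_product']
  set T := Icc 1 N ×ˢ P.offDiag with hT
  have hmaps : ∀ t ∈ T, t.1 * t.2.1 * t.2.2 ∈ Icc 1 (N * y ^ 2) := by
    intro t ht
    rw [hT, mem_product, mem_Icc, mem_offDiag] at ht
    obtain ⟨⟨h1, h2⟩, h3, h4, h5⟩ := ht
    have hp1 := (hP _ h3).pos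
    have hp2 := (hP _ h4).pos
    have hq1 := hPy _ h3
    have hq2 := hPy _ h4
    rw [mem_Icc]
    refine ⟨Nat.mul_pos (Nat.mul_pos h1 hp1) hp2, ?_⟩
    rw [sq, ← mul_assoc]
    exact Nat.mul_le_mul (Nat.mul_le_mul h2 hq1) hq2
  have hG : ∀ t ∈ T, 1 / (t.1 : ℝ) * (1 / (((om P t.1 : ℝ) + 1) * ((om P t.1 : ℝ) + 2))) *
      (1 / ((t.2.1 : ℝ) * t.2.2)) ≤
      1 / ((t.1 * t.2.1 * t.2.2 : ℕ) : ℝ) *
        (1 / (((om P (t.1 * t.2.1 * t.2.2) * om P (t.1 * t.2.1 * t.2.2)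
          - om P (t.1 * t.2.1 * t.2.2) : ℕ) : ℝ))) := by
    intro t ht
    rw [hT, mem_product, mem_Icc, mem_offDiag] at ht
    obtain ⟨⟨h1, h2⟩, h3, h4, h5⟩ := ht
    have hp1 := (hP _ h3).pos
    have hp2 := (hP _ h4).pos
    set m := t.1 * t.2.1 * t.2.2 with hm
    have hom : om P m ≤ om P t.1 + 2 := by
      have e : m = t.2.2 * (t.2.1 * t.1) := by rw [hm]; ring
      rw [e]
      have := om_mul_le P hP (t.2.1 * t.1) t.2.2 (hP _ h4)
      have := om_mul_le P hP t.1 t.2.1 (hP _ h3)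
      omega
    have hom2 : 2 ≤ om P m := by
      unfold om
      have : ({t.2.1, t.2.2} : Finset ℕ) ⊆ P.filter fun p => p ∣ m := by
        intro x hx
        rw [mem_insert, mem_singleton] at hx
        rw [mem_filter]
        rcases hx with h | h
        · subst h
          refine ⟨h3, ?_⟩
          rw [hm]
          exact Dvd.dvd.mul_right (dvd_mul_left _ _) _
        · subst h
          exact ⟨h4, dvd_mul_left _ _⟩
      have h6 := card_le_card this
      rwa [card_pair h5] at h6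
    have hsub : ((om P m * om P m - om P m : ℕ) : ℝ) = (om P m : ℝ) * ((om P m : ℝ) - 1) := by
      rw [Nat.cast_sub (Nat.le_mul_of_pos_left _ (by omega))]
      push_cast
      ring
    rw [hsub]
    have hr : (om P m : ℝ) ≤ (om P t.1 : ℝ) + 2 := by exact_mod_cast hom
    have hr2 : (2 : ℝ) ≤ (om P m : ℝ) := by exact_mod_cast hom2
    have hb : (0 : ℝ) < t.1 := by exact_mod_cast h1
    have hp1' : (0 : ℝ) < t.2.1 := by exact_mod_cast hp1
    have hp2' : (0 : ℝ) < t.2.2 := by exact_mod_cast hp2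
    have hmr : ((m : ℕ) : ℝ) = t.1 * t.2.1 * t.2.2 := by rw [hm]; push_cast; ring
    rw [hmr]
    have e2 : 1 / (t.1 : ℝ) * (1 / (((om P t.1 : ℝ) + 1) * ((om P t.1 : ℝ) + 2))) *
      (1 / ((t.2.1 : ℝ) * t.2.2)) = 1 / ((t.1 : ℝ) * t.2.1 * t.2.2) *
        (1 / (((om P t.1 : ℝ) + 1) * ((om P t.1 : ℝ) + 2))) := by
      field_simp
    rw [e2]
    refine mul_le_mul_of_nonneg_left ?_ (by positivity)
    refine one_div_le_one_div_of_le (by nlinarith) ?_
    nlinarith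
  refine (Finset.sum_le_sum hG).trans ?_
  rw [← Finset.sum_fiberwise_of_maps_to hmaps]
  refine Finset.sum_le_sum fun m hm => ?_
  rw [mem_Icc] at hm
  have hm0 : (0 : ℝ) < m := by exact_mod_cast hm.1
  have hcard : (T.filter fun t => t.1 * t.2.1 * t.2.2 = m).card ≤ om P m * om P m - om P m := by
    have h7 : om P m * om P m - om P m = ((P.filter fun p => p ∣ m).offDiag).card := by
      rw [offDiag_card]
      rfl
    rw [h7]
    refine Finset.card_le_card_of_injOn (fun t => t.2) ?_ ?_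
    · intro t ht
      rw [mem_coe, mem_filter, hT, mem_product, mem_offDiag] at ht
      obtain ⟨⟨h1, h3, h4, h5⟩, h6⟩ := ht
      rw [mem_coe, mem_offDiag, mem_filter, mem_filter, ← h6]
      refine ⟨⟨h3, ?_⟩, ⟨h4, dvd_mul_left _ _⟩, h5⟩
      exact Dvd.dvd.mul_right (dvd_mul_left _ _) _
    · intro t ht t' ht' h
      rw [mem_coe, mem_filter, hT, mem_product, mem_offDiag] at ht ht'
      obtain ⟨⟨h1, h3, h4, h5⟩, h6⟩ := ht
      obtain ⟨⟨h1', h3', h4', h5'⟩, h6'⟩ := ht'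
      dsimp only at h
      have hp1 := (hP _ h3).pos
      have hp2 := (hP _ h4).pos
      rw [← h] at h6'
      have h8 : t.1 * (t.2.1 * t.2.2) = t'.1 * (t.2.1 * t.2.2) := by
        rw [← mul_assoc, ← mul_assoc, h6, h6']
      have h9 := Nat.eq_of_mul_eq_mul_right (Nat.mul_pos hp1 hp2) h8
      exact Prod.ext h9 h
  calc ∑ t ∈ T.filter fun t => t.1 * t.2.1 * t.2.2 = m, 1 / ((t.1 * t.2.1 * t.2.2 : ℕ) : ℝ) *
        (1 / (((om P (t.1 * t.2.1 * t.2.2) * om P (t.1 * t.2.1 * t.2.2)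
          - om P (t.1 * t.2.1 * t.2.2) : ℕ) : ℝ)))
      = ∑ t ∈ T.filter fun t => t.1 * t.2.1 * t.2.2 = m, 1 / (m : ℝ) *
        (1 / (((om P m * om P m - om P m : ℕ) : ℝ))) := by
        refine Finset.sum_congr rfl fun t ht => ?_
        rw [mem_filter] at ht
        rw [ht.2]
    _ = ((T.filter fun t => t.1 * t.2.1 * t.2.2 = m).card : ℝ) * (1 / (m : ℝ) *
        (1 / (((om P m * om P m - om P m : ℕ) : ℝ)))) := by
        rw [Finset.sum_const, nsmul_eq_mul]
    _ ≤ ((om P m * om P m - om P m : ℕ) : ℝ) * (1 / (m : ℝ) *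
        (1 / (((om P m * om P m - om P m : ℕ) : ℝ)))) := by
        refine mul_le_mul_of_nonneg_right (by exact_mod_cast hcard) (by positivity)
    _ ≤ 1 / (m : ℝ) := by
        rcases Nat.eq_zero_or_pos (om P m * om P m - om P m) with h | h
        · rw [h]
          simp
        · have : (0 : ℝ) < ((om P m * om P m - om P m : ℕ) : ℝ) := by exact_mod_cast h
          field_simp
          exact le_refl _

/-- the weighted number of predecessors -/
noncomputable def DD (P A : Finset ℕ) (b : ℕ) : ℝ := ∑ p ∈ P, if p * b ∈ A then 1 / (p : ℝ) else 0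

theorem DD_nonneg (P A : Finset ℕ) (b : ℕ) : 0 ≤ DD P A b :=
  Finset.sum_nonneg fun p _ => by split_ifs <;> positivity

/-- lower bound for the first moment -/
theorem T1_ge (N : ℕ) (P A : Finset ℕ) (hP : ∀ p ∈ P, p.Prime) (hA : A ⊆ Icc 1 N) :
    recSum A - 2 * ∑ a ∈ A, 1 / (a : ℝ) * (1 / ((om P a : ℝ) + 2)) ≤
      ∑ b ∈ Icc 1 N, 1 / (b : ℝ) * DD P A b * uu P b := by
  have e1 : ∑ b ∈ Icc 1 N, 1 / (b : ℝ) * DD P A b * uu P b =
      ∑ a ∈ A, ∑ p ∈ P, (if p ∣ a then 1 / (a : ℝ) * uu P (a / p) else 0) := by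
    have h1 : ∀ b ∈ Icc 1 N, 1 / (b : ℝ) * DD P A b * uu P b =
        ∑ p ∈ P, (if p * b ∈ A then 1 / ((p * b : ℕ) : ℝ) * uu P b else 0) := by
      intro b _
      unfold DD
      rw [Finset.mul_sum, Finset.sum_mul]
      refine Finset.sum_congr rfl fun p _ => ?_
      split_ifs
      · push_cast
        rw [one_div_mul_one_div, mul_comm (b : ℝ)]
      · simp
    rw [Finset.sum_congr rfl h1, Finset.sum_comm]
    rw [Finset.sum_comm (s := A)]
    refine Finset.sum_congr rfl fun p hp => ?_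
    rw [sum_shift N A hA p (hP p hp).pos (fun b => 1 / ((p * b : ℕ) : ℝ) * uu P b)]
    refine Finset.sum_congr rfl fun a _ => ?_
    split_ifs with h
    · rw [Nat.mul_div_cancel' h]
    · rfl
  rw [e1]
  unfold recSum
  rw [Finset.mul_sum, ← Finset.sum_sub_distrib]
  refine Finset.sum_le_sum fun a ha => ?_
  have ha1 := hA ha
  rw [mem_Icc] at ha1
  have ha0 : (0 : ℝ) < a := by exact_mod_cast ha1.1
  rw [← Finset.sum_filter]
  have h2 : ∀ p ∈ P.filter (fun p => p ∣ a), 1 / (a : ℝ) * (1 / ((om P a : ℝ) + 2)) ≤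
      1 / (a : ℝ) * uu P (a / p) := by
    intro p hp
    rw [mem_filter] at hp
    refine mul_le_mul_of_nonneg_left ?_ (by positivity)
    exact uu_ge P (a / p) (om P a) (om_le_of_dvd P (Nat.div_dvd_of_dvd hp.2))
  have h3 := Finset.sum_le_sum h2
  rw [Finset.sum_const, nsmul_eq_mul] at h3
  refine le_trans (le_of_eq ?_) h3
  have h4 : ((P.filter (fun p => p ∣ a)).card : ℝ) = (om P a : ℝ) := rfl
  rw [h4]
  have h5 : (0 : ℝ) ≤ om P a := Nat.cast_nonneg _
  field_simp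
  ring

/-- the second moment -/
theorem E2_le (r N : ℕ) (P A : Finset ℕ) (hP : ∀ p ∈ P, p.Prime)
    (hA : Admissible r N A) :
    ∑ b ∈ Icc 1 N, 1 / (b : ℝ) * DD P A b ^ 2 ≤
      ((r : ℝ) - 1) * (recSum A * ∑ p ∈ P, 1 / (p : ℝ)) +
        (∑ b ∈ Icc 1 N, 1 / (b : ℝ)) * ∑ p ∈ P, 1 / (p : ℝ) ^ 2 := by
  obtain ⟨hAN, hAr⟩ := hA
  have h1 : ∀ b ∈ Icc 1 N, 1 / (b : ℝ) * DD P A b ^ 2 ≤
      ∑ p ∈ P, ∑ q ∈ P.erase p, (if q * b ∈ A then
        (if p * b ∈ A then 1 / ((b : ℝ) * p * q) else 0) else 0) +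
      (1 / (b : ℝ)) * ∑ p ∈ P, 1 / (p : ℝ) ^ 2 := by
    intro b hb
    rw [mem_Icc] at hb
    have hb0 : (0 : ℝ) < b := by exact_mod_cast hb.1
    unfold DD
    rw [sq, Finset.sum_mul_sum, Finset.mul_sum, Finset.mul_sum, ← Finset.sum_add_distrib]
    refine Finset.sum_le_sum fun p hp => ?_
    have hp0 : (0 : ℝ) < p := by exact_mod_cast (hP p hp).pos
    rw [Finset.mul_sum, ← Finset.add_sum_erase _ _ hp, add_comm]
    refine add_le_add (le_of_eq ?_) ?_
    · refine Finset.sum_congr rfl fun q hq => ?_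
      split_ifs
      · rw [one_div_mul_one_div, one_div_mul_one_div, mul_assoc]
      · simp
      · simp
      · simp
    · split_ifs
      · rw [one_div_mul_one_div, ← sq]
      · simp only [mul_zero]
        positivity
  refine (Finset.sum_le_sum h1).trans ?_
  rw [Finset.sum_add_distrib, ← Finset.sum_mul]
  refine add_le_add ?_ le_rfl
  -- change variables
  have e1 : ∑ b ∈ Icc 1 N, ∑ p ∈ P, ∑ q ∈ P.erase p, (if q * b ∈ A then
        (if p * b ∈ A then 1 / ((b : ℝ) * p * q) else 0) else 0) =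
      ∑ a ∈ A, ∑ p ∈ P, ∑ q ∈ P.erase p, (if q ∣ a then
        (if p * (a / q) ∈ A then 1 / ((p : ℝ) * a) else 0) else 0) := by
    rw [Finset.sum_comm, Finset.sum_comm (s := A)]
    refine Finset.sum_congr rfl fun p hp => ?_
    rw [Finset.sum_comm, Finset.sum_comm (s := A)]
    refine Finset.sum_congr rfl fun q hq => ?_
    have hq0 := (hP q (mem_of_mem_erase hq)).pos
    rw [sum_shift N A hAN q hq0 (fun b => if p * b ∈ A then 1 / ((b : ℝ) * p * q) else 0)]
    refine Finset.sum_congr rfl fun a _ => ?_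
    split_ifs with h2 h3
    · obtain ⟨c, hc⟩ := h2
      have hcq : a / q = c := by rw [hc, Nat.mul_div_cancel_left _ hq0]
      rw [hcq, hc]
      push_cast
      congr 1
      ring
    · rfl
    · rfl
  rw [e1]
  have h2 : ∀ a ∈ A, ∀ p ∈ P, ∑ q ∈ P.erase p, (if q ∣ a then
        (if p * (a / q) ∈ A then 1 / ((p : ℝ) * a) else 0) else 0) ≤
        ((r : ℝ) - 1) * (1 / (p : ℝ) * (1 / (a : ℝ))) := by
    intro a ha p hp
    have ha1 := hAN ha
    rw [mem_Icc] at ha1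
    have hp0 := (hP p hp).pos
    have e2 : ∑ q ∈ P.erase p, (if q ∣ a then
        (if p * (a / q) ∈ A then 1 / ((p : ℝ) * a) else 0) else 0) =
        (((P.erase p).filter fun q => q ∣ a ∧ p * (a / q) ∈ A).card : ℝ) *
          (1 / ((p : ℝ) * a)) := by
      rw [Finset.card_filter, Nat.cast_sum, Finset.sum_mul]
      refine Finset.sum_congr rfl fun q _ => ?_
      by_cases h3 : q ∣ a
      · by_cases h4 : p * (a / q) ∈ A
        · simp [h3, h4]
        · simp [h3, h4]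
      · simp [h3]
    rw [e2, one_div_mul_one_div]
    refine mul_le_mul_of_nonneg_right ?_ (by positivity)
    have h3 : ((P.erase p).filter fun q => q ∣ a ∧ p * (a / q) ∈ A).card + 1 ≤ r := by
      refine le_trans ?_ (hAr (p * a) (Nat.mul_pos hp0 ha1.1))
      unfold repCount
      rw [← Finset.card_insert_of_notMem (a := p)]
      · refine Finset.card_le_card_of_injOn (fun q => (q, p * a / q)) ?_ ?_
        · intro q hq
          rw [mem_coe, mem_insert, mem_filter, mem_erase] at hq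
          rw [mem_coe, mem_filter, Nat.mem_divisorsAntidiagonal]
          rcases hq with h | ⟨⟨h4, h5⟩, h6, h7⟩
          · subst h
            dsimp only
            rw [Nat.mul_div_cancel_left _ hp0]
            exact ⟨⟨rfl, (Nat.mul_pos hp0 ha1.1).ne'⟩, hP _ hp, ha⟩
          · dsimp only
            obtain ⟨c, hc⟩ := h6
            have hq0 := (hP q h5).pos
            have e3 : p * a / q = p * (a / q) := Nat.mul_div_assoc p ⟨c, hc⟩
            rw [e3]
            refine ⟨⟨?_, (Nat.mul_pos hp0 ha1.1).ne'⟩, hP _ h5, h7⟩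
            rw [hc, Nat.mul_div_cancel_left _ hq0]
            ring
        · intro q _ q' _ h
          exact (Prod.ext_iff.mp h).1
      · rw [mem_filter, mem_erase]
        tauto
    have h4 : ((((P.erase p).filter fun q => q ∣ a ∧ p * (a / q) ∈ A).card : ℝ)) + 1 ≤ r := by
      exact_mod_cast h3
    linarith
  refine (Finset.sum_le_sum fun a ha => Finset.sum_le_sum fun p hp => h2 a ha p hp).trans ?_
  apply le_of_eq
  unfold recSum
  rw [Finset.sum_mul_sum, Finset.mul_sum]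
  refine Finset.sum_congr rfl fun a _ => ?_
  rw [Finset.mul_sum]
  refine Finset.sum_congr rfl fun p _ => ?_
  ring

/-- Cauchy-Schwarz -/
theorem core (r N : ℕ) (P A : Finset ℕ) (hP : ∀ p ∈ P, p.Prime)
    (hA : Admissible r N A) (W : ℝ)
    (hW : W = ∑ b ∈ Icc 1 N, 1 / (b : ℝ) * (1 / (((om P b : ℝ) + 1) * ((om P b : ℝ) + 2)))) :
    recSum A ≤ 2 * Real.sqrt (recSum A * W) +
      Real.sqrt ((((r : ℝ) - 1) * (recSum A * ∑ p ∈ P, 1 / (p : ℝ)) +
        (∑ b ∈ Icc 1 N, 1 / (b : ℝ)) * ∑ p ∈ P, 1 / (p : ℝ) ^ 2) * W) := by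
  have h1 := T1_ge N P A hP hA.1
  have h2 := E2_le r N P A hP hA
  have h3 : (∑ b ∈ Icc 1 N, 1 / (b : ℝ) * DD P A b * uu P b) ^ 2 ≤
      (∑ b ∈ Icc 1 N, 1 / (b : ℝ) * DD P A b ^ 2) * W := by
    have h4 := Finset.sum_mul_sq_le_sq_mul_sq (Icc 1 N)
      (fun b => Real.sqrt (1 / (b : ℝ)) * DD P A b) (fun b => Real.sqrt (1 / (b : ℝ)) * uu P b)
    have e1 : ∀ b : ℕ, Real.sqrt (1 / (b : ℝ)) * DD P A b * (Real.sqrt (1 / (b : ℝ)) * uu P b) =
        1 / (b : ℝ) * DD P A b * uu P b := by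
      intro b
      have := Real.mul_self_sqrt (by positivity : (0 : ℝ) ≤ 1 / (b : ℝ))
      calc _ = (Real.sqrt (1 / (b : ℝ)) * Real.sqrt (1 / (b : ℝ))) * DD P A b * uu P b := by ring
        _ = _ := by rw [this]
    have e2 : ∀ (b : ℕ) (x : ℝ), (Real.sqrt (1 / (b : ℝ)) * x) ^ 2 = 1 / (b : ℝ) * x ^ 2 := by
      intro b x
      rw [mul_pow, Real.sq_sqrt (by positivity)]
    simp only [e1, e2] at h4
    refine h4.trans (le_of_eq ?_)
    congr 1
    rw [hW]
    refine Finset.sum_congr rfl fun b _ => ?_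
    rw [uu_sq]
  have hW0 : 0 ≤ W := by
    rw [hW]
    exact Finset.sum_nonneg fun b _ => by positivity
  have h5 : ∑ b ∈ Icc 1 N, 1 / (b : ℝ) * DD P A b * uu P b ≤
      Real.sqrt ((((r : ℝ) - 1) * (recSum A * ∑ p ∈ P, 1 / (p : ℝ)) +
        (∑ b ∈ Icc 1 N, 1 / (b : ℝ)) * ∑ p ∈ P, 1 / (p : ℝ) ^ 2) * W) := by
    refine Real.le_sqrt_of_sq_le (h3.trans ?_)
    exact mul_le_mul_of_nonneg_right h2 hW0
  have h6 : ∑ a ∈ A, 1 / (a : ℝ) * (1 / ((om P a : ℝ) + 2)) ≤ Real.sqrt (recSum A * W) := by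
    refine Real.le_sqrt_of_sq_le ?_
    have h4 := Finset.sum_mul_sq_le_sq_mul_sq A
      (fun b => Real.sqrt (1 / (b : ℝ))) (fun b => Real.sqrt (1 / (b : ℝ)) * (1 / ((om P b : ℝ) + 2)))
    have e1 : ∀ b : ℕ, Real.sqrt (1 / (b : ℝ)) * (Real.sqrt (1 / (b : ℝ)) * (1 / ((om P b : ℝ) + 2)))
        = 1 / (b : ℝ) * (1 / ((om P b : ℝ) + 2)) := by
      intro b
      have := Real.mul_self_sqrt (by positivity : (0 : ℝ) ≤ 1 / (b : ℝ))
      calc _ = (Real.sqrt (1 / (b : ℝ)) * Real.sqrt (1 / (b : ℝ))) * (1 / ((om P b : ℝ) + 2)) := by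
            ring
        _ = _ := by rw [this]
    have e2 : ∀ (b : ℕ) (x : ℝ), (Real.sqrt (1 / (b : ℝ)) * x) ^ 2 = 1 / (b : ℝ) * x ^ 2 := by
      intro b x
      rw [mul_pow, Real.sq_sqrt (by positivity)]
    have e3 : ∀ (b : ℕ), (Real.sqrt (1 / (b : ℝ))) ^ 2 = 1 / (b : ℝ) := by
      intro b
      rw [Real.sq_sqrt (by positivity)]
    simp only [e1, e2, e3] at h4
    refine h4.trans ?_
    refine mul_le_mul_of_nonneg_left ?_ (Finset.sum_nonneg fun b _ => by positivity)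
    rw [hW]
    calc ∑ b ∈ A, 1 / (b : ℝ) * (1 / ((om P b : ℝ) + 2)) ^ 2
        ≤ ∑ b ∈ A, 1 / (b : ℝ) * (1 / (((om P b : ℝ) + 1) * ((om P b : ℝ) + 2))) := by
          refine Finset.sum_le_sum fun b _ => mul_le_mul_of_nonneg_left ?_ (by positivity)
          rw [div_pow, one_pow]
          refine one_div_le_one_div_of_le (by positivity) ?_
          nlinarith [(Nat.cast_nonneg (om P b) : (0 : ℝ) ≤ (om P b : ℝ))]
      _ ≤ _ := Finset.sum_le_sum_of_subset_of_nonneg hA.1 (fun _ _ _ => by positivity)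
  linarith

end Pool.Agent.Helper83.PM
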