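import Pool.Agent.Helper83.PM.Core

/-!
# Asymptotic upper bound
-/

namespace Pool.Agent.Helper83.PM

open Finset Filter Topology

/-- the cut-off -/
noncomputable def yy (η : ℝ) (N : ℕ) : ℕ := ⌊Real.exp (η * Real.log N)⌋₊

theorem tendsto_logN : Tendsto (fun N : ℕ => Real.log N) atTop atTop :=
  Real.tendsto_log_atTop.comp tendsto_natCast_atTop_atTop

theorem tendsto_loglogN : Tendsto (fun N : ℕ => Real.log (Real.log N)) atTop atTop :=
  Real.tendsto_log_atTop.comp tendsto_logN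

theorem log_yy_le (η : ℝ) (hη : 0 < η) (N : ℕ) :
    Real.log (yy η N) ≤ η * Real.log N := by
  have h0 : 0 ≤ Real.log N := Real.log_natCast_nonneg N
  have h1 : (1 : ℝ) ≤ Real.exp (η * Real.log N) := by
    rw [← Real.exp_zero]; exact Real.exp_le_exp.mpr (by positivity)
  have h2 : 1 ≤ yy η N := Nat.le_floor (by simpa using h1)
  have h3 : (yy η N : ℝ) ≤ Real.exp (η * Real.log N) := Nat.floor_le (by positivity)
  calc Real.log (yy η N) ≤ Real.log (Real.exp (η * Real.log N)) :=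
        Real.log_le_log (by exact_mod_cast h2) h3
    _ = _ := Real.log_exp _

theorem log_yy_ge (η : ℝ) (hη : 0 < η) :
    ∀ᶠ N : ℕ in atTop, η / 2 * Real.log N ≤ Real.log (yy η N) ∧ 3 ≤ yy η N := by
  have h := tendsto_logN.const_mul_atTop hη
  filter_upwards [h.eventually_ge_atTop (4 : ℝ), eventually_ge_atTop 1] with N hN hN1
  have h1 : Real.exp (η * Real.log N) / 2 ≤ (yy η N : ℝ) := by
    have h2 := Nat.lt_floor_add_one (Real.exp (η * Real.log N))
    have h3 : (4 : ℝ) ≤ Real.exp (η * Real.log N) := by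
      have := Real.add_one_le_exp (η * Real.log N)
      linarith
    unfold yy
    linarith
  have h4 : (0 : ℝ) < Real.exp (η * Real.log N) / 2 := by positivity
  refine ⟨?_, ?_⟩
  · have h5 := Real.log_le_log h4 h1
    rw [Real.log_div (Real.exp_ne_zero _) (by norm_num), Real.log_exp] at h5
    have h6 : Real.log 2 ≤ 1 := by
      have := Real.log_two_lt_d9
      linarith
    linarith
  · unfold yy
    refine Nat.le_floor ?_
    have := Real.add_one_le_exp (η * Real.log N)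
    push_cast
    linarith

/-- the sum of reciprocals of the primes used -/
noncomputable def LL (η : ℝ) (z N : ℕ) : ℝ := ∑ p ∈ PP z (yy η N), 1 / (p : ℝ)

theorem LL_ge (η : ℝ) (hη : 0 < η) (z : ℕ) :
    ∀ᶠ N : ℕ in atTop, Real.log (Real.log N) + (Real.log (η / 2) - (2 + (z : ℝ))) ≤ LL η z N := by
  filter_upwards [log_yy_ge η hη, tendsto_logN.eventually_gt_atTop 0] with N hN hN1
  have h1 := sum_PP_ge z (yy η N) (by omega)
  have h2 : Real.log (Real.log N) + Real.log (η / 2) ≤ Real.log (Real.log (yy η N)) := by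
    rw [add_comm, ← Real.log_mul (by positivity) hN1.ne']
    exact Real.log_le_log (by positivity) hN.1
  unfold LL
  linarith

theorem LL_tendsto (η : ℝ) (hη : 0 < η) (z : ℕ) : Tendsto (fun N => LL η z N) atTop atTop := by
  refine tendsto_atTop_mono' _ (LL_ge η hη z) ?_
  exact tendsto_atTop_add_const_right _ _ tendsto_loglogN

theorem LL_ge' (η : ℝ) (hη : 0 < η) (z : ℕ) (δ : ℝ) (hδ : 0 < δ) :
    ∀ᶠ N : ℕ in atTop, (1 - δ) * Real.log (Real.log N) ≤ LL η z N := by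
  have h := tendsto_loglogN.const_mul_atTop hδ
  filter_upwards [LL_ge η hη z, h.eventually_ge_atTop (-(Real.log (η / 2) - (2 + (z : ℝ))))]
    with N h1 h2
  linarith

/-- the weighted sum -/
noncomputable def WW (η : ℝ) (z N : ℕ) : ℝ :=
  ∑ b ∈ Icc 1 N, 1 / (b : ℝ) * (1 / (((om (PP z (yy η N)) b : ℝ) + 1) *
    ((om (PP z (yy η N)) b : ℝ) + 2)))

theorem WW_nonneg (η : ℝ) (z N : ℕ) : 0 ≤ WW η z N :=
  Finset.sum_nonneg fun _ _ => by positivity

theorem WW_le (η : ℝ) (hη : 0 < η) (z : ℕ) (hz : 1 ≤ z) (δ : ℝ) (hδ : 0 < δ) (hδ1 : δ ≤ 1)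
    (hηδ : 8 * η ≤ δ) :
    ∀ᶠ N : ℕ in atTop, WW η z N * LL η z N ^ 2 ≤ (1 + δ) * Real.log N := by
  have hL := LL_tendsto η hη z
  filter_upwards [log_yy_ge η hη, tendsto_logN.eventually_ge_atTop (8 / δ),
    tendsto_logN.eventually_gt_atTop 0, eventually_ge_atTop 1,
    hL.eventually_ge_atTop (1 + 8 / δ)] with N h1 h2 h3 h4 h5
  have hP : ∀ p ∈ PP z (yy η N), p.Prime := fun p hp => (mem_PP.mp hp).2
  have hPy : ∀ p ∈ PP z (yy η N), p ≤ yy η N := fun p hp => (mem_PP.mp hp).1.2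
  have h6 := W_bound N (yy η N) (PP z (yy η N)) hP hPy
  have h7 : ∑ m ∈ Icc 1 (N * yy η N ^ 2), 1 / (m : ℝ) ≤ (1 + δ / 2) * Real.log N := by
    have h8 := harm_le_log (N * yy η N ^ 2)
    have h9 : Real.log ((N * yy η N ^ 2 : ℕ) : ℝ) = Real.log N + 2 * Real.log (yy η N) := by
      push_cast
      rw [Real.log_mul (by positivity) (by
        have : 0 < yy η N := by omega
        positivity), Real.log_pow]
      norm_num
    have h10 := log_yy_le η hη N
    rw [h9] at h8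
    have h11 : 1 ≤ δ / 8 * Real.log N := by
      rw [div_le_iff₀ hδ] at h2
      linarith
    have h12 : 2 * (η * Real.log N) ≤ δ / 4 * Real.log N := by
      have : 2 * η ≤ δ / 4 := by linarith
      nlinarith
    simp only [one_div] at h8 ⊢
    nlinarith
  have h13 : ∑ p ∈ PP z (yy η N), 1 / (p : ℝ) ^ 2 ≤ 1 := by
    refine le_trans (Finset.sum_le_sum_of_subset_of_nonneg (filter_subset _ _)
      (fun _ _ _ => by positivity)) ((sum_inv_sq_le z (yy η N) hz).trans ?_)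
    have : (1 : ℝ) ≤ z := by exact_mod_cast hz
    rw [div_le_one (by linarith)]
    exact this
  have hL1 : 1 ≤ LL η z N := by
    have : 0 < 8 / δ := by positivity
    linarith
  have hLδ : 8 / δ ≤ LL η z N ^ 2 := by
    have h14 : 0 < 8 / δ := by positivity
    nlinarith
  have h15 : WW η z N * (LL η z N ^ 2 - 1) ≤ (1 + δ / 2) * Real.log N := by
    refine le_trans ?_ (h6.trans h7)
    refine mul_le_mul_of_nonneg_left ?_ (WW_nonneg η z N)
    show LL η z N ^ 2 - 1 ≤ (∑ p ∈ PP z (yy η N), 1 / (p : ℝ)) ^ 2 -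
      ∑ p ∈ PP z (yy η N), 1 / (p : ℝ) ^ 2
    have : LL η z N = ∑ p ∈ PP z (yy η N), 1 / (p : ℝ) := rfl
    rw [← this]
    linarith
  -- `1 ≤ (δ/8) L²`
  have h16 : 1 ≤ δ / 8 * LL η z N ^ 2 := by
    rw [div_le_iff₀ hδ] at hLδ
    linarith
  have hW := WW_nonneg η z N
  have h17 : WW η z N * LL η z N ^ 2 * (1 - δ / 8) ≤ (1 + δ / 2) * Real.log N := by
    nlinarith
  have h18 : (1 + δ / 2) ≤ (1 + δ) * (1 - δ / 8) := by nlinarith
  have h19 : WW η z N * LL η z N ^ 2 * (1 - δ / 8) ≤ (1 + δ) * Real.log N * (1 - δ / 8) := by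
    nlinarith
  exact le_of_mul_le_mul_right h19 (by linarith)

/-- the real inequality behind the final step -/
theorem real_step (r s δ e : ℝ) (hr : 1 ≤ r) (hs : e ≤ s) (he : 0 < e) (hδ : 0 < δ) (hδ4 : δ ≤ 1 / 4)
    (hδe : δ * (2 + 3 * (r - 1) + 2 / e + 2 * e) ≤ e)
    (h : s ≤ δ * (1 + s) + Real.sqrt ((1 + δ) * ((r - 1) * s + δ))) : s ≤ r - 1 + e := by
  have hs0 : 0 < s := lt_of_lt_of_le he hs
  have h1 : Real.sqrt ((1 + δ) * ((r - 1) * s + δ)) ≤ (s + (1 + δ) * (r - 1 + δ / e)) / 2 := by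
    rw [Real.sqrt_le_left (by
      have : 0 ≤ r - 1 := by linarith
      positivity)]
    have h2 : (1 + δ) * ((r - 1) * s + δ) ≤ s * ((1 + δ) * (r - 1 + δ / e)) := by
      have h3 : δ ≤ s * (δ / e) := by
        rw [mul_div_assoc', le_div_iff₀ he]
        nlinarith
      nlinarith
    refine h2.trans ?_
    nlinarith [sq_nonneg (s - (1 + δ) * (r - 1 + δ / e))]
  have h4 : s * (1 - 2 * δ) ≤ 2 * δ + (1 + δ) * (r - 1 + δ / e) := by linarith
  have h5 : 2 * δ + (1 + δ) * (r - 1 + δ / e) ≤ (r - 1 + e) * (1 - 2 * δ) := by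
    have h6 : δ / e = δ * (1 / e) := by ring
    have h7 : δ * (2 / e) = 2 * (δ / e) := by ring
    have h8 : δ * (δ / e) ≤ 1 * (δ / e) := by
      refine mul_le_mul_of_nonneg_right (by linarith) (by positivity)
    nlinarith
  exact le_of_mul_le_mul_right (h4.trans h5) (by linarith)

/-- the computation behind the asymptotic bound -/
theorem final_real (r e δ l L W S X : ℝ) (hr : 1 ≤ r) (he0 : 0 < e) (hδ0 : 0 < δ)
    (hδ4 : δ ≤ 1 / 4) (hδe : δ * (2 + 3 * (r - 1) + 2 / e + 2 * e) ≤ e) (hl0 : 0 < l)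
    (h3 : 2 / δ ^ 2 ≤ L) (hS0 : 0 ≤ S) (hW0 : 0 ≤ W) (h1 : W * L ^ 2 ≤ (1 + δ) * l)
    (hX : X ≤ δ * l)
    (h6 : S ≤ 2 * Real.sqrt (S * W) + Real.sqrt (((r - 1) * (S * L) + X) * W)) :
    S ≤ (r - 1 + e) * (l / L) := by
  have hδ2 : 0 < 2 / δ ^ 2 := by positivity
  have hL0 : 0 < L := lt_of_lt_of_le hδ2 h3
  have hr1 : 0 ≤ r - 1 := by linarith
  obtain ⟨s, hs⟩ : ∃ s, s = S * L / l := ⟨_, rfl⟩
  have hSs : S = s * (l / L) := by
    rw [hs]; field_simp
  have hs0 : 0 ≤ s := by rw [hs]; positivity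
  have hWle : W ≤ (1 + δ) * l / L ^ 2 := by
    rw [le_div_iff₀ (by positivity)]; exact h1
  have hlL : 0 < l / L := by positivity
  have k1 : 2 * Real.sqrt (S * W) ≤ (l / L) * (δ * (1 + s)) := by
    have k2 : S * W ≤ ((l / L) * (δ * (1 + s) / 2)) ^ 2 := by
      have k3 : S * W ≤ (s * (l / L)) * ((1 + δ) * l / L ^ 2) := by
        rw [hSs]
        exact mul_le_mul_of_nonneg_left hWle (by positivity)
      refine k3.trans ?_
      have k4 : (s * (l / L)) * ((1 + δ) * l / L ^ 2) = (l / L) ^ 2 * (s * ((1 + δ) / L)) := by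
        field_simp
      rw [k4, mul_pow]
      refine mul_le_mul_of_nonneg_left ?_ (by positivity)
      have k5 : (1 + δ) / L ≤ δ ^ 2 := by
        rw [div_le_iff₀ hL0]
        rw [div_le_iff₀ (by positivity)] at h3
        nlinarith
      calc s * ((1 + δ) / L) ≤ s * δ ^ 2 := mul_le_mul_of_nonneg_left k5 hs0
        _ ≤ (δ * (1 + s) / 2) ^ 2 := by
          have : (δ * (1 + s) / 2) ^ 2 - s * δ ^ 2 = (δ * (1 - s) / 2) ^ 2 := by ring
          nlinarith [sq_nonneg (δ * (1 - s) / 2)]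
    have k6 : Real.sqrt (S * W) ≤ (l / L) * (δ * (1 + s) / 2) := by
      rw [Real.sqrt_le_left (by positivity)]; exact k2
    linarith
  have k7 : Real.sqrt (((r - 1) * (S * L) + X) * W) ≤
        (l / L) * Real.sqrt ((1 + δ) * ((r - 1) * s + δ)) := by
    have k8 : (l / L) * Real.sqrt ((1 + δ) * ((r - 1) * s + δ)) =
        Real.sqrt ((l / L) ^ 2 * ((1 + δ) * ((r - 1) * s + δ))) := by
      rw [Real.sqrt_mul (by positivity : (0 : ℝ) ≤ (l / L) ^ 2), Real.sqrt_sq hlL.le]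
    rw [k8]
    refine Real.sqrt_le_sqrt ?_
    have k10 : S * L = s * l := by
      rw [hs]; field_simp
    have k9 : (r - 1) * (S * L) + X ≤ ((r - 1) * s + δ) * l := by
      rw [k10]
      linarith
    have k11 : 0 ≤ ((r - 1) * s + δ) * l := by positivity
    calc _ ≤ (((r - 1) * s + δ) * l) * W := mul_le_mul_of_nonneg_right k9 hW0
      _ ≤ (((r - 1) * s + δ) * l) * ((1 + δ) * l / L ^ 2) :=
          mul_le_mul_of_nonneg_left hWle k11
      _ = _ := by field_simp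
  have k12 : s ≤ δ * (1 + s) + Real.sqrt ((1 + δ) * ((r - 1) * s + δ)) := by
    have k13 : (l / L) * s ≤ (l / L) * (δ * (1 + s) +
        Real.sqrt ((1 + δ) * ((r - 1) * s + δ))) := by
      rw [mul_add]
      calc (l / L) * s = S := by rw [hSs]; ring
        _ ≤ _ := h6.trans (add_le_add k1 k7)
    exact le_of_mul_le_mul_left k13 hlL
  have k14 : s ≤ r - 1 + e := by
    by_cases hse : e ≤ s
    · exact real_step r s δ e hr hse he0 hδ0 hδ4 hδe k12
    · push Not at hse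
      linarith
  rw [hSs]
  exact mul_le_mul_of_nonneg_right k14 hlL.le

theorem last_real (r e l L ll : ℝ) (hr : 1 ≤ r) (he : 0 < e) (hl : 0 < l) (hL : 0 < L)
    (hll : 0 < ll) (h : (1 - e / (r - 1 + 2 * e)) * ll ≤ L) :
    (r - 1 + e) * (l / L) ≤ (r - 1 + 2 * e) * (l / ll) := by
  have h1 : 0 < r - 1 + 2 * e := by linarith
  have h2 : (1 - e / (r - 1 + 2 * e)) = (r - 1 + e) / (r - 1 + 2 * e) := by
    rw [eq_div_iff h1.ne', sub_mul, div_mul_cancel₀ _ h1.ne']
    ring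
  rw [h2, div_mul_eq_mul_div, div_le_iff₀ h1] at h
  rw [← mul_div_assoc, ← mul_div_assoc, div_le_div_iff₀ hL hll]
  nlinarith

/-- The asymptotic upper bound. -/
theorem upper (r : ℕ) (hr : 1 ≤ r) (ε : ℝ) (hε : 0 < ε) :
    ∀ᶠ N : ℕ in atTop, ∀ A : Finset ℕ, Admissible r N A →
      recSum A ≤ ((r : ℝ) - 1 + ε) * (Real.log N / Real.log (Real.log N)) := by
  have hr' : (1 : ℝ) ≤ r := by exact_mod_cast hr
  obtain ⟨e, he⟩ : ∃ e : ℝ, e = ε / 2 := ⟨_, rfl⟩
  have he0 : 0 < e := by rw [he]; positivity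
  have hD0 : 0 < 2 + 3 * ((r : ℝ) - 1) + 2 / e + 2 * e := by
    have : 0 ≤ (r : ℝ) - 1 := by linarith
    positivity
  obtain ⟨δ, hδd⟩ : ∃ δ : ℝ, δ = min (1 / 4) (e / (2 + 3 * ((r : ℝ) - 1) + 2 / e + 2 * e)) :=
    ⟨_, rfl⟩
  have hδ0 : 0 < δ := by rw [hδd]; exact lt_min (by norm_num) (by positivity)
  have hδ4 : δ ≤ 1 / 4 := by rw [hδd]; exact min_le_left _ _
  have hδe : δ * (2 + 3 * ((r : ℝ) - 1) + 2 / e + 2 * e) ≤ e := by
    have : δ ≤ e / (2 + 3 * ((r : ℝ) - 1) + 2 / e + 2 * e) := by rw [hδd]; exact min_le_right _ _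
    rwa [le_div_iff₀ hD0] at this
  have hη0 : 0 < δ / 8 := by positivity
  obtain ⟨z, hz⟩ := exists_nat_gt (2 / δ)
  have hz0 : (0 : ℝ) < z := lt_trans (by positivity) hz
  have hz1 : 1 ≤ z := by exact_mod_cast hz0
  have hden : 0 < (r : ℝ) - 1 + 2 * e := by linarith
  have hθ0 : 0 < e / ((r : ℝ) - 1 + 2 * e) := by positivity
  have hL := LL_tendsto (δ / 8) hη0 z
  filter_upwards [WW_le (δ / 8) hη0 z hz1 δ hδ0 (by linarith) (by linarith),
    LL_ge' (δ / 8) hη0 z _ hθ0, hL.eventually_ge_atTop (2 / δ ^ 2),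
    tendsto_logN.eventually_ge_atTop 1, tendsto_loglogN.eventually_gt_atTop 0] with N h1 h2 h3 h4 h5
  intro A hA
  have hP : ∀ p ∈ PP z (yy (δ / 8) N), p.Prime := fun p hp => (mem_PP.mp hp).2
  have h6 := core r N (PP z (yy (δ / 8) N)) A hP hA (WW (δ / 8) z N) rfl
  have hH : ∑ b ∈ Icc 1 N, 1 / (b : ℝ) ≤ 2 * Real.log N := by
    have := harm_le_log N
    simp only [one_div]
    linarith
  have hL2 : ∑ p ∈ PP z (yy (δ / 8) N), 1 / (p : ℝ) ^ 2 ≤ δ / 2 := by
    refine le_trans (Finset.sum_le_sum_of_subset_of_nonneg (filter_subset _ _)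
      (fun _ _ _ => by positivity)) ((sum_inv_sq_le z (yy (δ / 8) N) hz1).trans ?_)
    rw [div_le_iff₀ hz0]
    rw [div_lt_iff₀ hδ0] at hz
    linarith
  have hHL : (∑ b ∈ Icc 1 N, 1 / (b : ℝ)) * ∑ p ∈ PP z (yy (δ / 8) N), 1 / (p : ℝ) ^ 2 ≤
      δ * Real.log N := by
    calc _ ≤ (2 * Real.log N) * (δ / 2) :=
          mul_le_mul hH hL2 (Finset.sum_nonneg fun _ _ => by positivity) (by positivity)
      _ = δ * Real.log N := by ring
  have hδ2 : 0 < 2 / δ ^ 2 := by positivity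
  have h7 := final_real r e δ (Real.log N) (LL (δ / 8) z N) (WW (δ / 8) z N) (recSum A) _ hr' he0
    hδ0 hδ4 hδe (by linarith) h3 (Finset.sum_nonneg fun _ _ => by positivity)
    (WW_nonneg _ _ _) h1 hHL h6
  refine h7.trans ?_
  have h8 := last_real r e (Real.log N) (LL (δ / 8) z N) (Real.log (Real.log N)) hr' he0
    (by linarith) (lt_of_lt_of_le hδ2 h3) h5 h2
  refine h8.trans (le_of_eq ?_)
  rw [he]
  ring_nf

theorem admissible_empty (r N : ℕ) : Admissible r N ∅ := by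
  refine ⟨empty_subset _, fun m _ => ?_⟩
  unfold repCount
  simp

/-- The asymptotic upper bound for the maximum. -/
theorem upper_max (r : ℕ) (hr : 1 ≤ r) (ε : ℝ) (hε : 0 < ε) :
    ∀ᶠ N : ℕ in atTop, maxSum r N ≤ ((r : ℝ) - 1 + ε) * (Real.log N / Real.log (Real.log N)) := by
  filter_upwards [upper r hr ε hε] with N hN
  unfold maxSum
  refine csSup_le ⟨_, ∅, admissible_empty r N, rfl⟩ ?_
  rintro _ ⟨A, hA, rfl⟩
  exact hN A hA

theorem exists_max (r N : ℕ) : ∃ A, Admissible r N A ∧ recSum A = maxSum r N ∧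
    ∀ B, Admissible r N B → recSum B ≤ recSum A := by
  classical
  have hfin : {A | Admissible r N A}.Finite := by
    refine (Finset.finite_toSet (Icc 1 N).powerset).subset ?_
    intro A hA
    rw [Finset.mem_coe, mem_powerset]
    exact hA.1
  obtain ⟨A, hA, hmax⟩ := Set.exists_max_image _ recSum hfin ⟨∅, admissible_empty r N⟩
  refine ⟨A, hA, ?_, hmax⟩
  apply le_antisymm
  · exact le_csSup (hfin.image _).bddAbove ⟨A, hA, rfl⟩
  · refine csSup_le ⟨_, ∅, admissible_empty r N, rfl⟩ ?_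
    rintro _ ⟨B, hB, rfl⟩
    exact hmax B hB

end Pool.Agent.Helper83.PM
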